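import Mathlib

set_option autoImplicit false

/-!
# A 5-homogeneous, 3-transitive group that is not 4-transitive and preserves no order

The points are the leaves of a dense tree all of whose vertices have valency three: the finitely
supported functions from `ℚ` to `ℤ/2`, and one more point. The group consists of all the
permutations that preserve the quaternary relation `the path from a to b is disjoint from the path
from c to d`.
-/

namespace Pool.Agent.Results.MP_deb208_al.FiveHomogeneous

open Equiv

/-! ### The definitions used in the statement -/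

/-- `G` is `t`-homogeneous: it acts transitively on the `t`-element subsets of `X`. -/
def IsHomogeneous {X : Type} (G : Subgroup (Perm X)) (t : ℕ) : Prop :=
  ∀ A B : Finset X, A.card = t → B.card = t → ∃ g ∈ G, A.map g.toEmbedding = B

/-- `G` is `t`-transitive: it acts transitively on the ordered `t`-tuples of pairwise distinct
elements of `X`. -/
def IsTransitive {X : Type} (G : Subgroup (Perm X)) (t : ℕ) : Prop :=
  ∀ a b : Fin t ↪ X, ∃ g ∈ G, ∀ i, g (a i) = b i

/-- `R` is a linear order (a strict total order) on `X`. -/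
def IsLinear {X : Type} (R : X → X → Prop) : Prop :=
  (∀ x, ¬ R x x) ∧ (∀ x y z, R x y → R y z → R x z) ∧ ∀ x y, x ≠ y → R x y ∨ R y x

/-- `C` is a circular order on `X`. -/
def IsCircular {X : Type} (C : X → X → X → Prop) : Prop :=
  (∀ x y z, C x y z → C y z x) ∧ (∀ x y z, C x y z → ¬ C z y x) ∧
    (∀ x y z w, C x y z → C x z w → C x y w) ∧
    ∀ x y z, x ≠ y → y ≠ z → x ≠ z → C x y z ∨ C z y x

/-- Every element of `G` maps the binary relation `R` to `R` or to its converse. -/
def PreservesPair₂ {X : Type} (G : Subgroup (Perm X)) (R : X → X → Prop) : Prop :=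
  ∀ g ∈ G, (∀ x y, R (g x) (g y) ↔ R x y) ∨ (∀ x y, R (g x) (g y) ↔ R y x)

/-- Every element of `G` maps the ternary relation `C` to `C` or to its converse. -/
def PreservesPair₃ {X : Type} (G : Subgroup (Perm X)) (C : X → X → X → Prop) : Prop :=
  ∀ g ∈ G, (∀ x y z, C (g x) (g y) (g z) ↔ C x y z) ∨ (∀ x y z, C (g x) (g y) (g z) ↔ C z y x)

/-! ### The tree -/

/-- finitely supported functions from the rationals to the integers modulo two -/
abbrev Q0 := ℚ →₀ ZMod 2

open Classical in
/-- the first place where two functions differ (`0` if they are equal) -/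
noncomputable def v (x y : Q0) : ℚ :=
  if h : (x - y).support.Nonempty then (x - y).support.min' h else 0

theorem v_spec {x y : Q0} (h : x ≠ y) : x (v x y) ≠ y (v x y) ∧ ∀ p < v x y, x p = y p := by
  have hne : (x - y).support.Nonempty := by
    rw [Finsupp.support_nonempty_iff]
    exact sub_ne_zero.mpr h
  have hv : v x y = (x - y).support.min' hne := by
    unfold v
    rw [dif_pos hne]
  have h1 : v x y ∈ (x - y).support := by
    rw [hv]; exact Finset.min'_mem _ _
  rw [Finsupp.mem_support_iff, Finsupp.sub_apply, sub_ne_zero] at h1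
  refine ⟨h1, fun p hp => ?_⟩
  by_contra hcon
  have h2 : p ∈ (x - y).support := by
    rw [Finsupp.mem_support_iff, Finsupp.sub_apply, sub_ne_zero]; exact hcon
  have h3 := Finset.min'_le _ _ h2
  rw [hv] at hp
  exact absurd h3 (not_le.mpr hp)

theorem v_eq {x y : Q0} {q : ℚ} (h1 : x q ≠ y q) (h2 : ∀ p < q, x p = y p) : v x y = q := by
  have hne : x ≠ y := by rintro rfl; exact h1 rfl
  obtain ⟨h3, h4⟩ := v_spec hne
  rcases lt_trichotomy (v x y) q with h | h | h
  · exact absurd (h2 _ h) h3
  · exact h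
  · exact absurd (h4 _ h) h1

theorem v_comm (x y : Q0) : v x y = v y x := by
  by_cases h : x = y
  · rw [h]
  · obtain ⟨h1, h2⟩ := v_spec h
    exact (v_eq h1.symm (fun p hp => (h2 p hp).symm)).symm

theorem zmod2 {a b c : ZMod 2} (h1 : a ≠ b) (h2 : b ≠ c) : a = c := by
  revert a b c; decide

/-- the triple lemma: the tree is binary -/
theorem triple {x y z : Q0} (hxy : x ≠ y) (hyz : y ≠ z) (hxz : x ≠ z) :
    (v x y = v x z ∧ v x y < v y z) ∨ (v x y = v y z ∧ v x y < v x z) ∨
      (v x z = v y z ∧ v x z < v x y) := by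
  obtain ⟨a1, a2⟩ := v_spec hxy
  obtain ⟨b1, b2⟩ := v_spec hyz
  obtain ⟨c1, c2⟩ := v_spec hxz
  rcases lt_trichotomy (v x y) (v y z) with h | h | h
  · left
    have : v x z = v x y := v_eq (by rw [← b2 _ h]; exact a1)
      (fun p hp => (a2 p hp).trans (b2 p (hp.trans h)))
    exact ⟨this.symm, h⟩
  · right; left
    refine ⟨h, ?_⟩
    rcases lt_trichotomy (v x y) (v x z) with h' | h' | h'
    · exact h'
    · exfalso
      have h3 : x (v x y) = z (v x y) := zmod2 a1 (by rw [h]; exact b1)
      rw [h'] at h3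
      exact c1 h3
    · exfalso
      exact c1 ((a2 _ h').trans (b2 _ (by rw [← h]; exact h')))
  · right; right
    have : v x z = v y z := v_eq (by rw [a2 _ h]; exact b1)
      (fun p hp => (a2 p (hp.trans h)).trans (b2 p hp))
    exact ⟨this, by rw [this]; exact h⟩

/-- the points -/
abbrev X := Option Q0

/-- levels -/
noncomputable def w : X → X → ℚ
  | some x, some y => v x y
  | _, _ => 0

@[simp] theorem w_some (x y : Q0) : w (some x) (some y) = v x y := rfl
@[simp] theorem w_none_left (x : X) : w none x = 0 := by cases x <;> rfl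
@[simp] theorem w_none_right (x : X) : w x none = 0 := by cases x <;> rfl

theorem w_comm (x y : X) : w x y = w y x := by
  cases x <;> cases y <;> simp [v_comm]

/-- the quaternary relation: the path from `a` to `b` is disjoint from the path from `c` to `d` -/
def D (a b c d : X) : Prop := w a c + w b d < w a b + w c d

/-- four pairwise distinct points -/
def Dist (a b c d : X) : Prop := a ≠ b ∧ a ≠ c ∧ a ≠ d ∧ b ≠ c ∧ b ≠ d ∧ c ≠ d

theorem Dist.map {a b c d : X} (h : Dist a b c d) (g : Perm X) : Dist (g a) (g b) (g c) (g d) := by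
  obtain ⟨h1, h2, h3, h4, h5, h6⟩ := h
  exact ⟨g.injective.ne h1, g.injective.ne h2, g.injective.ne h3, g.injective.ne h4,
    g.injective.ne h5, g.injective.ne h6⟩

/-- the group: all the permutations that preserve the quaternary relation -/
def G : Subgroup (Perm X) where
  carrier := {g | ∀ a b c d, Dist a b c d → (D (g a) (g b) (g c) (g d) ↔ D a b c d)}
  mul_mem' := by
    intro g h hg hh a b c d hd
    rw [Perm.mul_apply, Perm.mul_apply, Perm.mul_apply, Perm.mul_apply, hg _ _ _ _ (hd.map h),
      hh _ _ _ _ hd]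
  one_mem' := by intro a b c d _; rfl
  inv_mem' := by
    intro g hg a b c d hd
    have := hg _ _ _ _ (hd.map g⁻¹)
    simpa using this.symm

theorem mem_G (g : Perm X) :
    g ∈ G ↔ ∀ a b c d, Dist a b c d → (D (g a) (g b) (g c) (g d) ↔ D a b c d) := Iff.rfl

/-- isometries belong to the group, and more generally maps changing the levels by a coboundary -/
theorem mem_of_coboundary (g : Perm X) (u : X → ℚ)
    (h : ∀ x y, x ≠ y → w (g x) (g y) = w x y - u x - u y) : g ∈ G := by
  rw [mem_G]
  rintro a b c d ⟨h1, h2, h3, h4, h5, h6⟩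
  unfold D
  rw [h a c h2, h b d h5, h a b h1, h c d h6]
  constructor <;> intro hh <;> linarith

/-- order description of the quaternary relation, finite points -/
theorem D_finite {a b c d : Q0} (hab : a ≠ b) (hac : a ≠ c) (had : a ≠ d) (hbc : b ≠ c)
    (hbd : b ≠ d) (hcd : c ≠ d) :
    D (some a) (some b) (some c) (some d) ↔
      (v a c < v a b ∧ v a d < v a b) ∨ (v a c < v c d ∧ v b c < v c d) := by
  unfold D
  simp only [w_some]
  rcases triple hab hbc hac with h1 | h1 | h1 <;> rcases triple hab hbd had with h2 | h2 | h2 <;>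
    rcases triple hac hcd had with h3 | h3 | h3 <;> rcases triple hbc hcd hbd with h4 | h4 | h4 <;>
    constructor <;> intro h5 <;>
    first
      | (exfalso; linarith [h1.1, h1.2, h2.1, h2.2, h3.1, h3.2, h4.1, h4.2])
      | (left; constructor <;> linarith [h1.1, h1.2, h2.1, h2.2, h3.1, h3.2, h4.1, h4.2])
      | (right; constructor <;> linarith [h1.1, h1.2, h2.1, h2.2, h3.1, h3.2, h4.1, h4.2])
      | linarith [h1.1, h1.2, h2.1, h2.2, h3.1, h3.2, h4.1, h4.2]
      | (rcases h5 with h5 | h5 <;>
          linarith [h1.1, h1.2, h2.1, h2.2, h3.1, h3.2, h4.1, h4.2, h5.1, h5.2])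

/-! ### Elements of the group -/

/-- change of levels by an order automorphism of the rationals -/
noncomputable def phi (φ : ℚ ≃o ℚ) : Perm X :=
  Equiv.optionCongr (Finsupp.domCongr (M := ZMod 2) φ.toEquiv).toEquiv

theorem phi_none (φ : ℚ ≃o ℚ) : phi φ none = none := rfl

theorem phi_some (φ : ℚ ≃o ℚ) (x : Q0) :
    phi φ (some x) = some (Finsupp.domCongr (M := ZMod 2) φ.toEquiv x) := rfl

theorem dom_apply (φ : ℚ ≃o ℚ) (x : Q0) (q : ℚ) :
    (Finsupp.domCongr (M := ZMod 2) φ.toEquiv x) (φ q) = x q := by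
  simp [Finsupp.domCongr_apply]

theorem v_phi (φ : ℚ ≃o ℚ) {x y : Q0} (h : x ≠ y) :
    v (Finsupp.domCongr (M := ZMod 2) φ.toEquiv x) (Finsupp.domCongr (M := ZMod 2) φ.toEquiv y) =
      φ (v x y) := by
  obtain ⟨h1, h2⟩ := v_spec h
  apply v_eq
  · rw [dom_apply, dom_apply]; exact h1
  · intro p hp
    obtain ⟨p, rfl⟩ := φ.surjective p
    rw [dom_apply, dom_apply]
    exact h2 _ (φ.lt_iff_lt.mp hp)

theorem phi_mem (φ : ℚ ≃o ℚ) : phi φ ∈ G := by
  rw [mem_G]
  rintro a b c d ⟨h1, h2, h3, h4, h5, h6⟩
  have hne : ∀ {x y : Q0}, some x ≠ some y → x ≠ y := fun h h' => h (congrArg some h')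
  have hne' : ∀ {x y : Q0}, x ≠ y →
      Finsupp.domCongr (M := ZMod 2) φ.toEquiv x ≠ Finsupp.domCongr (M := ZMod 2) φ.toEquiv y :=
    fun h h' => h ((Finsupp.domCongr (M := ZMod 2) φ.toEquiv).injective h')
  cases a with
  | none =>
    cases b with
    | none => exact absurd rfl h1
    | some b =>
    cases c with
    | none => exact absurd rfl h2
    | some c =>
    cases d with
    | none => exact absurd rfl h3
    | some d =>
      simp only [phi_none, phi_some, D, w_none_left, w_some, v_phi φ (hne h5), v_phi φ (hne h6),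
        zero_add]
      exact φ.lt_iff_lt
  | some a =>
    cases b with
    | none =>
      cases c with
      | none => exact absurd rfl h4
      | some c =>
      cases d with
      | none => exact absurd rfl h5
      | some d =>
        simp only [phi_none, phi_some, D, w_none_left, w_none_right, w_some, v_phi φ (hne h2),
          v_phi φ (hne h6), zero_add, add_zero]
        exact φ.lt_iff_lt
    | some b =>
      cases c with
      | none =>
        cases d with
        | none => exact absurd rfl h6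
        | some d =>
          simp only [phi_none, phi_some, D, w_none_left, w_none_right, w_some, v_phi φ (hne h1),
            v_phi φ (hne h5), zero_add, add_zero]
          exact φ.lt_iff_lt
      | some c =>
        cases d with
        | none =>
          simp only [phi_none, phi_some, D, w_none_right, w_some, v_phi φ (hne h1),
            v_phi φ (hne h2), add_zero]
          exact φ.lt_iff_lt
        | some d =>
          rw [phi_some, phi_some, phi_some, phi_some,
            D_finite (hne' (hne h1)) (hne' (hne h2)) (hne' (hne h3)) (hne' (hne h4))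
              (hne' (hne h5)) (hne' (hne h6)),
            D_finite (hne h1) (hne h2) (hne h3) (hne h4) (hne h5) (hne h6), v_phi φ (hne h1),
            v_phi φ (hne h2), v_phi φ (hne h3), v_phi φ (hne h4), v_phi φ (hne h6)]
          simp only [φ.lt_iff_lt]

open Classical in
/-- translation by `d` on a cone -/
noncomputable def coneF (q : ℚ) (e d : Q0) (x : Q0) : Q0 := if ∀ p ≤ q, x p = e p then x + d else x

theorem coneF_pos {q : ℚ} {e d x : Q0} (h : ∀ p ≤ q, x p = e p) : coneF q e d x = x + d := by
  unfold coneF; rw [if_pos h]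

theorem coneF_neg {q : ℚ} {e d x : Q0} (h : ¬ ∀ p ≤ q, x p = e p) : coneF q e d x = x := by
  unfold coneF; rw [if_neg h]

theorem add_self' (x : Q0) : x + x = 0 := by
  ext q
  simp only [Finsupp.add_apply, Finsupp.zero_apply]
  generalize x q = a
  revert a; decide

theorem coneF_apply_le {q : ℚ} {e d : Q0} (hd : ∀ p ≤ q, d p = 0) (x : Q0) (p : ℚ) (hp : p ≤ q) :
    coneF q e d x p = x p := by
  by_cases h : ∀ p ≤ q, x p = e p
  · rw [coneF_pos h, Finsupp.add_apply, hd p hp, add_zero]
  · rw [coneF_neg h]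

theorem coneF_invol {q : ℚ} {e d : Q0} (hd : ∀ p ≤ q, d p = 0) (x : Q0) :
    coneF q e d (coneF q e d x) = x := by
  by_cases h : ∀ p ≤ q, x p = e p
  · have h' : ∀ p ≤ q, coneF q e d x p = e p := fun p hp => by
      rw [coneF_apply_le hd x p hp]; exact h p hp
    rw [coneF_pos h', coneF_pos h, add_assoc, add_self', add_zero]
  · rw [coneF_neg h, coneF_neg h]

/-- translation by `d` on a cone, as a permutation -/
noncomputable def cone (q : ℚ) (e d : Q0) (hd : ∀ p ≤ q, d p = 0) : Perm X :=
  Equiv.optionCongr ⟨coneF q e d, coneF q e d, coneF_invol hd, coneF_invol hd⟩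

theorem cone_none (q : ℚ) (e d : Q0) (hd : ∀ p ≤ q, d p = 0) : cone q e d hd none = none := rfl

theorem cone_some (q : ℚ) (e d : Q0) (hd : ∀ p ≤ q, d p = 0) (x : Q0) :
    cone q e d hd (some x) = some (coneF q e d x) := rfl

theorem v_cone {q : ℚ} {e d : Q0} (hd : ∀ p ≤ q, d p = 0) {x y : Q0} (h : x ≠ y) :
    v (coneF q e d x) (coneF q e d y) = v x y := by
  obtain ⟨h1, h2⟩ := v_spec h
  by_cases hx : ∀ p ≤ q, x p = e p
  · by_cases hy : ∀ p ≤ q, y p = e p
    · rw [coneF_pos hx, coneF_pos hy]
      apply v_eq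
      · simpa using h1
      · intro p hp
        simpa using h2 p hp
    · have h3 : v x y ≤ q := by
        by_contra hcon
        push Not at hcon
        apply hy
        intro p hp
        rw [← hx p hp, h2 p (lt_of_le_of_lt hp hcon)]
      apply v_eq
      · rw [coneF_apply_le hd _ _ h3, coneF_apply_le hd _ _ h3]; exact h1
      · intro p hp
        rw [coneF_apply_le hd _ _ (hp.le.trans h3), coneF_apply_le hd _ _ (hp.le.trans h3)]
        exact h2 p hp
  · by_cases hy : ∀ p ≤ q, y p = e p
    · have h3 : v x y ≤ q := by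
        by_contra hcon
        push Not at hcon
        apply hx
        intro p hp
        rw [← hy p hp, h2 p (lt_of_le_of_lt hp hcon)]
      apply v_eq
      · rw [coneF_apply_le hd _ _ h3, coneF_apply_le hd _ _ h3]; exact h1
      · intro p hp
        rw [coneF_apply_le hd _ _ (hp.le.trans h3), coneF_apply_le hd _ _ (hp.le.trans h3)]
        exact h2 p hp
    · rw [coneF_neg hx, coneF_neg hy]

theorem cone_mem (q : ℚ) (e d : Q0) (hd : ∀ p ≤ q, d p = 0) : cone q e d hd ∈ G := by
  apply mem_of_coboundary _ (fun _ => 0)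
  intro x y hxy
  cases x with
  | none => simp [cone_none]
  | some x =>
    cases y with
    | none => simp [cone_none]
    | some y =>
      have hne : x ≠ y := fun h => hxy (congrArg some h)
      rw [cone_some, cone_some, w_some, w_some, v_cone hd hne]
      ring

/-- translation -/
noncomputable def tr (d : Q0) : Perm X := Equiv.optionCongr (Equiv.addRight d)

theorem tr_none (d : Q0) : tr d none = none := rfl

theorem tr_some (d x : Q0) : tr d (some x) = some (x + d) := rfl

theorem v_tr (d : Q0) {x y : Q0} (h : x ≠ y) : v (x + d) (y + d) = v x y := by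
  obtain ⟨h1, h2⟩ := v_spec h
  apply v_eq
  · simpa using h1
  · intro p hp
    simpa using h2 p hp

theorem tr_mem (d : Q0) : tr d ∈ G := by
  apply mem_of_coboundary _ (fun _ => 0)
  intro x y hxy
  cases x with
  | none => simp [tr_none]
  | some x =>
    cases y with
    | none => simp [tr_none]
    | some y =>
      have hne : x ≠ y := fun h => hxy (congrArg some h)
      rw [tr_some, tr_some, w_some, w_some, v_tr d hne]
      ring

/-- shift of the levels by `s` -/
noncomputable def sh (s : ℚ) (x : Q0) : Q0 := Finsupp.domCongr (M := ZMod 2) (Equiv.addRight s) x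

theorem sh_apply (s : ℚ) (x : Q0) (q : ℚ) : sh s x q = x (q - s) := by
  simp [sh, Finsupp.domCongr_apply, sub_eq_add_neg]

theorem sh_sh (s t : ℚ) (x : Q0) : sh s (sh t x) = sh (s + t) x := by
  ext q
  rw [sh_apply, sh_apply, sh_apply]
  congr 1
  ring

theorem sh_zero (x : Q0) : sh 0 x = x := by
  ext q
  rw [sh_apply]
  congr 1
  ring

theorem sh_ne {s : ℚ} {x : Q0} (h : x ≠ 0) : sh s x ≠ 0 := by
  intro h'
  apply h
  rw [← sh_zero x, ← neg_add_cancel s, ← sh_sh, h']
  ext q
  rw [sh_apply]; rfl

theorem v_sh (s : ℚ) {x y : Q0} (h : x ≠ y) : v (sh s x) (sh s y) = v x y + s := by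
  obtain ⟨h1, h2⟩ := v_spec h
  apply v_eq
  · rw [sh_apply, sh_apply, add_sub_cancel_right]; exact h1
  · intro p hp
    rw [sh_apply, sh_apply]
    exact h2 _ (by linarith)

/-- the inversion, on nonzero functions -/
noncomputable def inv0 (x : Q0) : Q0 := sh (-2 * v x 0) x

theorem v_inv0 {x : Q0} (h : x ≠ 0) : v (inv0 x) 0 = - v x 0 := by
  have h1 := v_sh (-2 * v x 0) h
  have h2 : sh (-2 * v x 0) 0 = 0 := by ext q; rw [sh_apply]; rfl
  rw [h2] at h1
  unfold inv0
  rw [h1]
  ring

theorem inv0_invol {x : Q0} (h : x ≠ 0) : inv0 (inv0 x) = x := by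
  have h1 := v_inv0 h
  have h2 : inv0 (inv0 x) = sh (-2 * v (inv0 x) 0) (sh (-2 * v x 0) x) := rfl
  rw [h2, h1, sh_sh]
  have : -2 * -v x 0 + -2 * v x 0 = 0 := by ring
  rw [this, sh_zero]

theorem inv0_ne {x : Q0} (h : x ≠ 0) : inv0 x ≠ 0 := sh_ne h

/-- the levels after the inversion -/
theorem v_inv0_inv0 {x y : Q0} (hx : x ≠ 0) (hy : y ≠ 0) (h : x ≠ y) :
    v (inv0 x) (inv0 y) = v x y - v x 0 - v y 0 := by
  by_cases hq : v x 0 = v y 0
  · have h1 := v_sh (-2 * v x 0) h
    have h2 : inv0 y = sh (-2 * v x 0) y := by rw [hq]; rfl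
    rw [h2]
    unfold inv0
    rw [h1, ← hq]
    ring
  · have hne : inv0 x ≠ inv0 y := by
      intro h'
      apply h
      rw [← inv0_invol hx, ← inv0_invol hy, h']
    have h1 := v_inv0 hx
    have h2 := v_inv0 hy
    have t1 := triple h hy hx
    have t2 := triple hne (inv0_ne hy) (inv0_ne hx)
    rw [h1, h2] at t2
    rcases t1 with t1 | t1 | t1 <;> rcases t2 with t2 | t2 | t2
    all_goals
      first
        | linarith [t1.1, t1.2, t2.1, t2.2]
        | (exfalso; apply hq; linarith [t1.1, t1.2, t2.1, t2.2])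

open Classical in
/-- the inversion, exchanging `0` and the point at infinity -/
noncomputable def invF : X → X
  | none => some 0
  | some x => if x = 0 then none else some (inv0 x)

theorem invF_none : invF none = some 0 := rfl
theorem invF_zero : invF (some 0) = none := by simp [invF]
theorem invF_some {x : Q0} (h : x ≠ 0) : invF (some x) = some (inv0 x) := by simp [invF, h]

theorem invF_invol (x : X) : invF (invF x) = x := by
  cases x with
  | none => rw [invF_none, invF_zero]
  | some x =>
    by_cases h : x = 0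
    · rw [h, invF_zero, invF_none]
    · rw [invF_some h, invF_some (inv0_ne h), inv0_invol h]

/-- the inversion as a permutation -/
noncomputable def inv : Perm X := ⟨invF, invF, invF_invol, invF_invol⟩

theorem inv_none : inv none = some 0 := rfl
theorem inv_zero : inv (some 0) = none := invF_zero
theorem inv_some {x : Q0} (h : x ≠ 0) : inv (some x) = some (inv0 x) := invF_some h

/-- the coboundary of the inversion -/
noncomputable def u : X → ℚ
  | none => 0
  | some x => v x 0

theorem v_self (x : Q0) : v x x = 0 := by simp [v]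

theorem inv_mem : inv ∈ G := by
  apply mem_of_coboundary _ u
  intro x y hxy
  cases x with
  | none =>
    cases y with
    | none => exact absurd rfl hxy
    | some y =>
      by_cases hy : y = 0
      · subst hy
        rw [inv_none, inv_zero]
        simp [u, v_self]
      · rw [inv_none, inv_some hy]
        simp only [w_some, w_none_left, u]
        rw [v_comm, v_inv0 hy]
        ring
  | some x =>
    cases y with
    | none =>
      by_cases hx : x = 0
      · subst hx
        rw [inv_none, inv_zero]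
        simp [u, v_self]
      · rw [inv_none, inv_some hx]
        simp only [w_some, w_none_right, u]
        rw [v_inv0 hx]
        ring
    | some y =>
      have hne : x ≠ y := fun h => hxy (congrArg some h)
      by_cases hx : x = 0
      · subst hx
        rw [inv_zero, inv_some hne.symm]
        simp only [w_some, w_none_left, u, v_self]
        rw [v_comm]
        ring
      · by_cases hy : y = 0
        · subst hy
          rw [inv_zero, inv_some hne]
          simp only [w_some, w_none_right, u, v_self]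
          ring
        · rw [inv_some hx, inv_some hy]
          simp only [w_some, u]
          exact v_inv0_inv0 hx hy hne

/-! ### Normal forms -/

/-- the function that is one exactly at `q` -/
noncomputable def dl (q : ℚ) : Q0 := Finsupp.single q 1

theorem dl_self (q : ℚ) : dl q q = 1 := by simp [dl]

theorem dl_ne {p q : ℚ} (h : p ≠ q) : dl q p = 0 := by
  unfold dl
  rw [Finsupp.single_apply, if_neg h.symm]

theorem dl_ne_zero (q : ℚ) : dl q ≠ 0 := by
  intro h
  have := dl_self q
  rw [h, Finsupp.coe_zero, Pi.zero_apply] at this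
  exact absurd this (by decide)

theorem v_dl (q : ℚ) : v (dl q) 0 = q := by
  apply v_eq
  · rw [dl_self, Finsupp.coe_zero, Pi.zero_apply]; decide
  · intro p hp
    rw [dl_ne hp.ne]; rfl

theorem zmod2_one {a : ZMod 2} (h : a ≠ 0) : a = 1 := by
  revert a; decide

theorem adjust_vanish {b : Q0} (hb : b ≠ 0) : ∀ p ≤ v b 0, (b + dl (v b 0)) p = 0 := by
  intro p hp
  obtain ⟨h1, h2⟩ := v_spec hb
  rcases hp.lt_or_eq with hp | hp
  · rw [Finsupp.add_apply, h2 p hp, dl_ne hp.ne]; rfl
  · rw [hp, Finsupp.add_apply, dl_self, zmod2_one h1]; decide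

/-- move `b` to the function with the same first place and support of size one, and fix
everything that does not start at that place -/
theorem adjust {b : Q0} (hb : b ≠ 0) : ∃ g ∈ G, g none = none ∧ g (some b) = some (dl (v b 0)) ∧
    ∀ x : Q0, (x = 0 ∨ v x 0 ≠ v b 0) → g (some x) = some x := by
  refine ⟨cone (v b 0) b (b + dl (v b 0)) (adjust_vanish hb), cone_mem _ _ _ _, rfl, ?_, ?_⟩
  · rw [cone_some, coneF_pos (fun _ _ => rfl), ← add_assoc, add_self', zero_add]
  · intro x hx
    rw [cone_some]
    congr 1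
    apply coneF_neg
    intro h
    obtain ⟨h1, h2⟩ := v_spec hb
    rcases hx with rfl | hx
    · exact h1 (h _ le_rfl).symm
    · apply hx
      apply v_eq
      · rw [h _ le_rfl]; exact h1
      · intro p hp
        rw [h _ hp.le]
        exact h2 p hp

theorem normal4 {b c d : Q0} (hb0 : b ≠ 0) (hc0 : c ≠ 0) (hd0 : d ≠ 0) (hb : v b 0 = 2)
    (hc : v c 0 = 1) (hd : v d 0 = 0) :
    ∃ g ∈ G, g none = none ∧ g (some 0) = some 0 ∧ g (some b) = some (dl 2) ∧
      g (some c) = some (dl 1) ∧ g (some d) = some (dl 0) := by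
  obtain ⟨g1, hg1, a1, a2, a3⟩ := adjust hb0
  obtain ⟨g2, hg2, b1, b2, b3⟩ := adjust hc0
  obtain ⟨g3, hg3, c1, c2, c3⟩ := adjust hd0
  rw [hb] at a2 a3
  rw [hc] at b2 b3
  rw [hd] at c2 c3
  refine ⟨g3 * (g2 * g1), G.mul_mem hg3 (G.mul_mem hg2 hg1), ?_, ?_, ?_, ?_, ?_⟩
  · rw [Perm.mul_apply, Perm.mul_apply, a1, b1, c1]
  · rw [Perm.mul_apply, Perm.mul_apply, a3 0 (Or.inl rfl), b3 0 (Or.inl rfl), c3 0 (Or.inl rfl)]
  · rw [Perm.mul_apply, Perm.mul_apply, a2, b3 _ (Or.inr (by rw [v_dl]; norm_num)),
      c3 _ (Or.inr (by rw [v_dl]; norm_num))]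
  · rw [Perm.mul_apply, Perm.mul_apply, a3 _ (Or.inr (by rw [hc]; norm_num)), b2,
      c3 _ (Or.inr (by rw [v_dl]; norm_num))]
  · rw [Perm.mul_apply, Perm.mul_apply, a3 _ (Or.inr (by rw [hd]; norm_num)),
      b3 _ (Or.inr (by rw [hd]; norm_num)), c2]

/-- affine change of levels -/
theorem exists_affine {q0 q1 : ℚ} (h : q0 < q1) : ∃ φ : ℚ ≃o ℚ, φ q0 = 0 ∧ φ q1 = 1 := by
  have hpos : 0 < q1 - q0 := by linarith
  refine ⟨StrictMono.orderIsoOfRightInverse (fun x => (x - q0) / (q1 - q0)) ?_
    (fun y => y * (q1 - q0) + q0) ?_, ?_, ?_⟩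
  · intro x y hxy
    exact div_lt_div_of_pos_right (by linarith) hpos
  · intro y
    change (y * (q1 - q0) + q0 - q0) / (q1 - q0) = y
    field_simp
    ring
  · change (q0 - q0) / (q1 - q0) = 0
    simp
  · change (q1 - q0) / (q1 - q0) = 1
    exact div_self hpos.ne'

/-- piecewise linear change of levels -/
theorem exists_piecewise {q : ℚ} (h : 1 < q) : ∃ φ : ℚ ≃o ℚ, φ 0 = 0 ∧ φ 1 = 1 ∧ φ q = 2 := by
  have hpos : 0 < q - 1 := by linarith
  refine ⟨StrictMono.orderIsoOfRightInverse
    (fun x => if x ≤ 1 then x else 1 + (x - 1) / (q - 1)) ?_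
    (fun y => if y ≤ 1 then y else 1 + (y - 1) * (q - 1)) ?_, ?_, ?_, ?_⟩
  · intro x y hxy
    change (if x ≤ 1 then x else 1 + (x - 1) / (q - 1)) <
      (if y ≤ 1 then y else 1 + (y - 1) / (q - 1))
    split_ifs with h1 h2 h2
    · exact hxy
    · push Not at h2
      have : 0 < (y - 1) / (q - 1) := div_pos (by linarith) hpos
      linarith
    · exfalso
      apply h1
      linarith
    · have : (x - 1) / (q - 1) < (y - 1) / (q - 1) :=
        div_lt_div_of_pos_right (by linarith) hpos
      linarith
  · intro y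
    by_cases h1 : y ≤ 1
    · simp [h1]
    · have h1' := not_le.mp h1
      have h2 : 0 < (y - 1) * (q - 1) := mul_pos (by linarith) hpos
      simp only [if_neg h1]
      rw [if_neg (by linarith)]
      field_simp
      ring
  · change (if (0 : ℚ) ≤ 1 then (0 : ℚ) else 1 + (0 - 1) / (q - 1)) = 0
    rw [if_pos (by norm_num)]
  · change (if (1 : ℚ) ≤ 1 then (1 : ℚ) else 1 + (1 - 1) / (q - 1)) = 1
    rw [if_pos le_rfl]
  · change (if q ≤ 1 then q else 1 + (q - 1) / (q - 1)) = 2
    rw [if_neg (not_le.mpr h), div_self hpos.ne']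
    norm_num

theorem exists_levels {q0 q1 q2 : ℚ} (h01 : q0 < q1) (h12 : q1 < q2) :
    ∃ φ : ℚ ≃o ℚ, φ q0 = 0 ∧ φ q1 = 1 ∧ φ q2 = 2 := by
  obtain ⟨φ, h1, h2⟩ := exists_affine h01
  have h3 : 1 < φ q2 := by
    rw [← h2]; exact φ.lt_iff_lt.mpr h12
  obtain ⟨ψ, k1, k2, k3⟩ := exists_piecewise h3
  refine ⟨φ.trans ψ, ?_, ?_, ?_⟩
  · rw [OrderIso.trans_apply, h1, k1]
  · rw [OrderIso.trans_apply, h2, k2]
  · rw [OrderIso.trans_apply, k3]

theorem dom_zero (φ : ℚ ≃o ℚ) : Finsupp.domCongr (M := ZMod 2) φ.toEquiv 0 = 0 := map_zero _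

theorem dom_ne_zero (φ : ℚ ≃o ℚ) {x : Q0} (h : x ≠ 0) :
    Finsupp.domCongr (M := ZMod 2) φ.toEquiv x ≠ 0 := by
  intro h'
  apply h
  apply (Finsupp.domCongr (M := ZMod 2) φ.toEquiv).injective
  rw [h', map_zero]

theorem v_dom (φ : ℚ ≃o ℚ) {x : Q0} (h : x ≠ 0) :
    v (Finsupp.domCongr (M := ZMod 2) φ.toEquiv x) 0 = φ (v x 0) := by
  have := v_phi φ h
  rwa [dom_zero] at this

/-- five points in general position, one of them at infinity, moved to the standard ones -/
theorem normal5 {a b c d : Q0} (hb : b ≠ a) (hc : c ≠ a) (hd : d ≠ a) (h1 : v a d < v a c)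
    (h2 : v a c < v a b) :
    ∃ g ∈ G, g none = none ∧ g (some a) = some 0 ∧ g (some b) = some (dl 2) ∧
      g (some c) = some (dl 1) ∧ g (some d) = some (dl 0) := by
  have hne : ∀ {x : Q0}, x ≠ a → x + a ≠ 0 := by
    intro x hx h
    apply hx
    have := congrArg (· + a) h
    simpa [add_assoc, add_self'] using this
  have hv : ∀ {x : Q0}, x ≠ a → v (x + a) 0 = v a x := by
    intro x hx
    rw [← add_self' a, v_tr a hx, v_comm]
  obtain ⟨φ, k1, k2, k3⟩ := exists_levels h1 h2
  obtain ⟨g, hg, a1, a2, a3, a4, a5⟩ := normal4 (dom_ne_zero φ (hne hb)) (dom_ne_zero φ (hne hc))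
    (dom_ne_zero φ (hne hd)) (by rw [v_dom φ (hne hb), hv hb, k3])
    (by rw [v_dom φ (hne hc), hv hc, k2]) (by rw [v_dom φ (hne hd), hv hd, k1])
  refine ⟨g * (phi φ * tr a), G.mul_mem hg (G.mul_mem (phi_mem φ) (tr_mem a)), ?_, ?_, ?_, ?_, ?_⟩
  · rw [Perm.mul_apply, Perm.mul_apply, tr_none, phi_none, a1]
  · rw [Perm.mul_apply, Perm.mul_apply, tr_some, phi_some, add_self', dom_zero, a2]
  · rw [Perm.mul_apply, Perm.mul_apply, tr_some, phi_some, a3]
  · rw [Perm.mul_apply, Perm.mul_apply, tr_some, phi_some, a4]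
  · rw [Perm.mul_apply, Perm.mul_apply, tr_some, phi_some, a5]

/-- every point can be moved to the point at infinity -/
theorem move_none (p : X) : ∃ g ∈ G, g p = none := by
  cases p with
  | none => exact ⟨1, G.one_mem, rfl⟩
  | some x =>
    refine ⟨inv * tr x, G.mul_mem inv_mem (tr_mem x), ?_⟩
    rw [Perm.mul_apply, tr_some, add_self', inv_zero]

/-- the standard set -/
noncomputable def std : Finset X := {none, some 0, some (dl 2), some (dl 1), some (dl 0)}

theorem map_five (g : Perm X) (p1 p2 p3 p4 p5 : X) :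
    ({p1, p2, p3, p4, p5} : Finset X).map g.toEmbedding = {g p1, g p2, g p3, g p4, g p5} := by
  simp [Finset.map_insert, Finset.map_singleton]

theorem std_perm1 :
    ({some (dl 1), none, some (dl 0), some 0, some (dl 2)} : Finset X) = std := by
  unfold std
  ext x
  simp only [Finset.mem_insert, Finset.mem_singleton]
  tauto

theorem std_perm2 :
    ({none, some 0, some (dl 2), some (dl 0), some (dl 1)} : Finset X) = std := by
  unfold std
  ext x
  simp only [Finset.mem_insert, Finset.mem_singleton]
  tauto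

/-- the balanced case -/
theorem balanced {a b c d : Q0} (hab : a ≠ b) (hac : a ≠ c) (had : a ≠ d) (hcd : c ≠ d)
    (h1 : v a c < v a b) (h2 : v a c = v a d) (h3 : v a c < v c d) :
    ∃ g ∈ G, ({none, some a, some b, some c, some d} : Finset X).map g.toEmbedding = std := by
  have hne : ∀ {x : Q0}, a ≠ x → x + a ≠ 0 := by
    intro x hx h
    apply hx
    have := congrArg (· + a) h
    simpa [add_assoc, add_self'] using this.symm
  have hv : ∀ {x : Q0}, a ≠ x → v (x + a) 0 = v a x := by
    intro x hx
    rw [← add_self' a, v_tr a hx.symm, v_comm]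
  have ib := v_inv0 (hne hab)
  have ic := v_inv0 (hne hac)
  have id' := v_inv0 (hne had)
  rw [hv hab] at ib
  rw [hv hac] at ic
  rw [hv had] at id'
  have hcd' : v (inv0 (c + a)) (inv0 (d + a)) = v c d - v a c - v a d := by
    rw [v_inv0_inv0 (hne hac) (hne had) (fun h => hcd (add_right_cancel h)), v_tr a hcd, hv hac,
      hv had]
  have hbc : b ≠ c := by rintro rfl; exact lt_irrefl _ h1
  have hbc' : v (inv0 (b + a)) (inv0 (c + a)) = v b c - v a b - v a c := by
    rw [v_inv0_inv0 (hne hab) (hne hac) (fun h => hbc (add_right_cancel h)), v_tr a hbc, hv hab,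
      hv hac]
  have tbc : v b c = v a c := by
    rcases triple hab hbc hac with t | t | t <;> linarith [t.1, t.2]
  have hinj : ∀ {x y : Q0}, a ≠ x → a ≠ y → x ≠ y → inv0 (x + a) ≠ inv0 (y + a) := by
    intro x y hx hy hxy h
    apply hxy
    have h' := congrArg inv0 h
    rw [inv0_invol (hne hx), inv0_invol (hne hy)] at h'
    exact add_right_cancel h'
  obtain ⟨g, hg, a1, a2, a3, a4, a5⟩ := normal5 (a := inv0 (c + a)) (b := inv0 (d + a)) (c := 0)
    (d := inv0 (b + a)) (hinj had hac hcd.symm) (inv0_ne (hne hac)).symm (hinj hab hac hbc)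
    (by rw [v_comm, hbc', ic]; linarith) (by rw [hcd', ic]; linarith)
  refine ⟨g * (inv * tr a), G.mul_mem hg (G.mul_mem inv_mem (tr_mem a)), ?_⟩
  have e1 : (g * (inv * tr a)) none = some (dl 1) := by
    rw [Perm.mul_apply, Perm.mul_apply, tr_none, inv_none, a4]
  have e2 : (g * (inv * tr a)) (some a) = none := by
    rw [Perm.mul_apply, Perm.mul_apply, tr_some, add_self', inv_zero, a1]
  have e3 : (g * (inv * tr a)) (some b) = some (dl 0) := by
    rw [Perm.mul_apply, Perm.mul_apply, tr_some, inv_some (hne hab), a5]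
  have e4 : (g * (inv * tr a)) (some c) = some 0 := by
    rw [Perm.mul_apply, Perm.mul_apply, tr_some, inv_some (hne hac), a2]
  have e5 : (g * (inv * tr a)) (some d) = some (dl 2) := by
    rw [Perm.mul_apply, Perm.mul_apply, tr_some, inv_some (hne had), a3]
  rw [map_five, e1, e2, e3, e4, e5, std_perm1]

theorem std_of_finite (S : Finset Q0) (hS : S.card = 4) :
    ∃ g ∈ G, (insert none (S.map Function.Embedding.some)).map g.toEmbedding = std := by
  classical
  have hne : S.offDiag.Nonempty := by
    rw [← Finset.card_pos, Finset.offDiag_card, hS]; norm_num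
  obtain ⟨⟨a, b⟩, hab, hmax⟩ := Finset.exists_max_image S.offDiag (fun p => v p.1 p.2) hne
  rw [Finset.mem_offDiag] at hab
  obtain ⟨haS, hbS, hab⟩ := hab
  simp only at haS hbS hab hmax
  have hcard : ((S.erase a).erase b).card = 2 := by
    rw [Finset.card_erase_of_mem (Finset.mem_erase.mpr ⟨hab.symm, hbS⟩),
      Finset.card_erase_of_mem haS, hS]
  obtain ⟨c, d, hcd, hcd'⟩ := Finset.card_eq_two.mp hcard
  have hc : c ∈ (S.erase a).erase b := by rw [hcd']; simp
  have hd : d ∈ (S.erase a).erase b := by rw [hcd']; simp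
  simp only [Finset.mem_erase] at hc hd
  obtain ⟨hcb, hca, hcS⟩ := hc
  obtain ⟨hdb, hda, hdS⟩ := hd
  have hSeq : S = {a, b, c, d} := by
    rw [← hcd', Finset.insert_erase (Finset.mem_erase.mpr ⟨hab.symm, hbS⟩),
      Finset.insert_erase haS]
  have m : ∀ x ∈ S, ∀ y ∈ S, x ≠ y → v x y ≤ v a b := by
    intro x hx y hy hxy
    exact hmax (x, y) (Finset.mem_offDiag.mpr ⟨hx, hy, hxy⟩)
  have c1 : v a c < v a b := by
    rcases triple hab hcb.symm hca.symm with t | t | t
    · linarith [t.1, t.2, m b hbS c hcS hcb.symm]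
    · linarith [t.1, t.2, m a haS c hcS hca.symm]
    · exact t.2
  have d1 : v a d < v a b := by
    rcases triple hab hdb.symm hda.symm with t | t | t
    · linarith [t.1, t.2, m b hbS d hdS hdb.symm]
    · linarith [t.1, t.2, m a haS d hdS hda.symm]
    · exact t.2
  have hins : (insert none (S.map Function.Embedding.some) : Finset X) =
      {none, some a, some b, some c, some d} := by
    rw [hSeq]
    simp [Finset.map_insert, Finset.map_singleton]
  rw [hins]
  rcases lt_trichotomy (v a c) (v a d) with h | h | h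
  · obtain ⟨g, hg, a1, a2, a3, a4, a5⟩ := normal5 hab.symm hda hca h d1
    refine ⟨g, hg, ?_⟩
    rw [map_five, a1, a2, a3, a4, a5, std_perm2]
  · apply balanced hab hca.symm hda.symm hcd c1 h
    rcases triple hca.symm hcd hda.symm with t | t | t
    · exact t.2
    · linarith [t.1, t.2]
    · linarith [t.1, t.2]
  · obtain ⟨g, hg, a1, a2, a3, a4, a5⟩ := normal5 hab.symm hca hda h c1
    refine ⟨g, hg, ?_⟩
    rw [map_five, a1, a2, a3, a4, a5]
    rfl

theorem std_of_five (A : Finset X) (hA : A.card = 5) : ∃ g ∈ G, A.map g.toEmbedding = std := by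
  classical
  obtain ⟨p, hp⟩ : A.Nonempty := by rw [← Finset.card_pos, hA]; norm_num
  obtain ⟨g0, hg0, h0⟩ := move_none p
  have hmem : none ∈ A.map g0.toEmbedding := by
    rw [Finset.mem_map]
    exact ⟨p, hp, h0⟩
  have heq : insert none ((A.map g0.toEmbedding).eraseNone.map Function.Embedding.some) =
      A.map g0.toEmbedding := by
    rw [Finset.map_some_eraseNone, Finset.insert_erase hmem]
  have hcard : (A.map g0.toEmbedding).eraseNone.card = 4 := by
    rw [← Finset.card_map Function.Embedding.some, Finset.map_some_eraseNone,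
      Finset.card_erase_of_mem hmem, Finset.card_map, hA]
  obtain ⟨g, hg, h1⟩ := std_of_finite _ hcard
  rw [heq, Finset.map_map] at h1
  exact ⟨g * g0, G.mul_mem hg hg0, h1⟩

theorem homogeneous : IsHomogeneous G 5 := by
  intro A B hA hB
  obtain ⟨g, hg, h1⟩ := std_of_five A hA
  obtain ⟨k, hk, h2⟩ := std_of_five B hB
  refine ⟨k⁻¹ * g, G.mul_mem (G.inv_mem hk) hg, ?_⟩
  have h3 : (A.map g.toEmbedding).map (k⁻¹).toEmbedding = (B.map k.toEmbedding).map
      (k⁻¹).toEmbedding := by rw [h1, h2]
  rw [Finset.map_map, Finset.map_map] at h3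
  have h4 : k.toEmbedding.trans (k⁻¹).toEmbedding = Function.Embedding.refl X := by
    ext x; simp
  rw [h4, Finset.map_refl] at h3
  exact h3

theorem normal3 (x y z : X) (hxy : x ≠ y) (hxz : x ≠ z) (hyz : y ≠ z) :
    ∃ g ∈ G, g x = none ∧ g y = some 0 ∧ g z = some (dl 0) := by
  obtain ⟨g0, hg0, h0⟩ := move_none x
  obtain ⟨y', hy'⟩ : ∃ y', g0 y = some y' := by
    rw [← Option.ne_none_iff_exists', ← h0]
    exact g0.injective.ne hxy.symm
  obtain ⟨z', hz'⟩ : ∃ z', g0 z = some z' := by
    rw [← Option.ne_none_iff_exists', ← h0]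
    exact g0.injective.ne hxz.symm
  have hne : z' + y' ≠ 0 := by
    intro h
    apply hyz
    apply g0.injective
    rw [hy', hz']
    have := congrArg (· + y') h
    simp only [add_assoc, add_self', add_zero, zero_add] at this
    rw [this]
  obtain ⟨φ, k1, k2⟩ := exists_affine (q0 := v (z' + y') 0) (q1 := v (z' + y') 0 + 1)
    (by linarith)
  obtain ⟨g, hg, a1, a2, a3⟩ := adjust (dom_ne_zero φ hne)
  rw [v_dom φ hne, k1] at a2
  refine ⟨g * (phi φ * (tr y' * g0)),
    G.mul_mem hg (G.mul_mem (phi_mem φ) (G.mul_mem (tr_mem y') hg0)), ?_, ?_, ?_⟩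
  · rw [Perm.mul_apply, Perm.mul_apply, Perm.mul_apply, h0, tr_none, phi_none, a1]
  · rw [Perm.mul_apply, Perm.mul_apply, Perm.mul_apply, hy', tr_some, add_self', phi_some,
      dom_zero, a3 0 (Or.inl rfl)]
  · rw [Perm.mul_apply, Perm.mul_apply, Perm.mul_apply, hz', tr_some, phi_some, a2]

theorem transitive : IsTransitive G 3 := by
  intro a b
  obtain ⟨g, hg, h1, h2, h3⟩ := normal3 (a 0) (a 1) (a 2) (a.injective.ne (by decide))
    (a.injective.ne (by decide)) (a.injective.ne (by decide))
  obtain ⟨k, hk, k1, k2, k3⟩ := normal3 (b 0) (b 1) (b 2) (b.injective.ne (by decide))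
    (b.injective.ne (by decide)) (b.injective.ne (by decide))
  refine ⟨k⁻¹ * g, G.mul_mem (G.inv_mem hk) hg, ?_⟩
  intro i
  rw [Perm.mul_apply, Perm.inv_eq_iff_eq]
  fin_cases i
  · simp [h1, k1]
  · simp [h2, k2]
  · simp [h3, k3]

theorem dl_injective {p q : ℚ} (h : p ≠ q) : dl p ≠ dl q := by
  intro h'
  have h1 := dl_self p
  rw [h', dl_ne h] at h1
  exact absurd h1 (by decide)

theorem not_transitive : ¬ IsTransitive G 4 := by
  intro h
  have hd : Dist (some 0) (some (dl 1)) (some (dl 0)) none := by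
    refine ⟨?_, ?_, ?_, ?_, ?_, ?_⟩
    · exact fun h => (dl_ne_zero 1) (Option.some.inj h).symm
    · exact fun h => (dl_ne_zero 0) (Option.some.inj h).symm
    · simp
    · exact fun h => dl_injective (by norm_num) (Option.some.inj h)
    · simp
    · simp
  let A : Fin 4 → X := ![some 0, some (dl 1), some (dl 0), none]
  let B : Fin 4 → X := ![some 0, some (dl 0), some (dl 1), none]
  obtain ⟨d1, d2, d3, d4, d5, d6⟩ := hd
  have hA : Function.Injective A := by
    intro i j hij
    fin_cases i <;> fin_cases j <;> simp_all [A]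
  have hB : Function.Injective B := by
    intro i j hij
    fin_cases i <;> fin_cases j <;> simp_all [B]
  obtain ⟨g, hg, hgi⟩ := h ⟨A, hA⟩ ⟨B, hB⟩
  have e0 : g (some 0) = some 0 := hgi 0
  have e1 : g (some (dl 1)) = some (dl 0) := hgi 1
  have e2 : g (some (dl 0)) = some (dl 1) := hgi 2
  have e3 : g none = none := hgi 3
  have h1 := (mem_G g).mp hg _ _ _ _ ⟨d1, d2, d3, d4, d5, d6⟩
  rw [e0, e1, e2, e3] at h1
  have h2 : D (some 0) (some (dl 1)) (some (dl 0)) none := by
    unfold D
    simp only [w_some, w_none_right]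
    rw [v_comm 0 (dl 0), v_comm 0 (dl 1), v_dl, v_dl]
    norm_num
  have h3 := h1.mpr h2
  unfold D at h3
  simp only [w_some, w_none_right] at h3
  rw [v_comm 0 (dl 0), v_comm 0 (dl 1), v_dl, v_dl] at h3
  norm_num at h3

/-- an element of the group exchanging two points and fixing three others -/
theorem exists_swap : ∃ g ∈ G, ∃ a b p q r : X, a ≠ b ∧ p ≠ q ∧ q ≠ r ∧ p ≠ r ∧ a ≠ p ∧ b ≠ p ∧
    g a = b ∧ g b = a ∧ g p = p ∧ g q = q ∧ g r = r := by
  have hd : ∀ p ≤ (0 : ℚ), dl 1 p = 0 := by
    intro p hp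
    apply dl_ne
    intro h
    rw [h] at hp
    norm_num at hp
  have n : ∀ q ≤ (0 : ℚ), ¬ ∀ p ≤ (0 : ℚ), dl q p = (0 : Q0) p := by
    intro q hq h
    have := h q hq
    rw [dl_self, Finsupp.coe_zero, Pi.zero_apply] at this
    exact absurd this (by decide)
  refine ⟨cone 0 0 (dl 1) hd, cone_mem _ _ _ _, some 0, some (dl 1), none, some (dl 0),
    some (dl (-1)), ?_, ?_, ?_, ?_, ?_, ?_, ?_, ?_, ?_, ?_, ?_⟩
  · exact fun h => (dl_ne_zero 1) (Option.some.inj h).symm
  · simp
  · exact fun h => dl_injective (by norm_num) (Option.some.inj h)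
  · simp
  · simp
  · simp
  · rw [cone_some, coneF_pos (fun _ _ => rfl), zero_add]
  · rw [cone_some, coneF_pos (fun p hp => hd p hp), add_self']
  · rfl
  · rw [cone_some, coneF_neg (n 0 le_rfl)]
  · rw [cone_some, coneF_neg (n (-1) (by norm_num))]

/-- no linear order is preserved or reversed by all the elements -/
theorem no_linear (R : X → X → Prop) (hR : IsLinear R) : ¬ PreservesPair₂ G R := by
  intro h
  obtain ⟨hirr, htr, htot⟩ := hR
  have hasym : ∀ x y, R x y → ¬ R y x := fun x y h1 h2 => hirr x (htr _ _ _ h1 h2)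
  obtain ⟨g, hg, a, b, p, q, r, hab, hpq, -, -, -, -, ga, gb, gp, gq, -⟩ := exists_swap
  rcases h g hg with h1 | h1
  · have h2 := h1 a b
    rw [ga, gb] at h2
    rcases htot a b hab with h3 | h3
    · exact hasym _ _ h3 (h2.mpr h3)
    · exact hasym _ _ h3 (h2.mp h3)
  · have h2 := h1 p q
    rw [gp, gq] at h2
    rcases htot p q hpq with h3 | h3
    · exact hasym _ _ h3 (h2.mp h3)
    · exact hasym _ _ h3 (h2.mpr h3)

/-- no circular order is preserved or reversed by all the elements -/
theorem no_circular (C : X → X → X → Prop) (hC : IsCircular C) : ¬ PreservesPair₃ G C := by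
  intro h
  obtain ⟨hcyc, hasym, -, htot⟩ := hC
  obtain ⟨g, hg, a, b, p, q, r, hab, hpq, hqr, hpr, hap, hbp, ga, gb, gp, gq, gr⟩ := exists_swap
  rcases h g hg with h1 | h1
  · have h2 := h1 p a b
    rw [ga, gb, gp] at h2
    rcases htot p a b hap.symm hab hbp.symm with h3 | h3
    · exact hasym _ _ _ h3 (hcyc _ _ _ (h2.mpr h3))
    · have h4 : C p b a := hcyc _ _ _ (hcyc _ _ _ h3)
      exact hasym _ _ _ h3 (h2.mp h4)
  · have h2 := h1 p q r
    rw [gp, gq, gr] at h2
    rcases htot p q r hpq hqr hpr with h3 | h3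
    · exact hasym _ _ _ h3 (h2.mp h3)
    · exact hasym _ _ _ h3 (h2.mpr h3)

/-- **A negative answer to Q1.** There is a permutation group on an infinite set that is
`5`-homogeneous and `3`-transitive but not `4`-transitive (the case `r = 3`), and such that no
linear order and no circular order is mapped to itself or to its converse by all the elements of
the group. -/
theorem result : ∃ (X : Type) (G : Subgroup (Perm X)), Infinite X ∧
    IsHomogeneous G 5 ∧ IsTransitive G 3 ∧ ¬ IsTransitive G 4 ∧
    (∀ R : X → X → Prop, IsLinear R → ¬ PreservesPair₂ G R) ∧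
    (∀ C : X → X → X → Prop, IsCircular C → ¬ PreservesPair₃ G C) := by
  refine ⟨X, G, ?_, homogeneous, transitive, not_transitive, no_linear, no_circular⟩
  exact Infinite.of_injective (fun q : ℚ => (some (dl q) : X))
    (fun p q h => by
      by_contra hne
      exact dl_injective hne (Option.some.inj h))

end Pool.Agent.Results.MP_deb208_al.FiveHomogeneous
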